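import Mathlib

set_option autoImplicit false

/-!
For every fixed `n ≥ 1` the proportional choice number of `K_{n,m}` is asymptotically `m/2`.

More precisely we show `m + 1 < 2 χ_pc(K_{n,m})` for all `m`, and that `K_{n,m}` is proportionally
`k`-choosable as soon as `2k = m + 2n + e` with `2 n² m ≤ (n + e) e`.
-/

namespace Pool.Agent.Results.MP_f66848_co.AsymptoticHalf

open Finset

/-- The multiplicity of the colour `c`: the number of vertices whose list contains `c`. -/
def mult {V C : Type} [Fintype V] [DecidableEq C] (L : V → Finset C) (c : C) : ℕ :=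
  (univ.filter fun v => c ∈ L v).card

/-- `G` is proportionally `k`-choosable: for every assignment of `k`-element lists there is a
proper colouring from the lists in which each colour `c` of the palette is used
`⌊η(c)/k⌋` or `⌈η(c)/k⌉` times. -/
def ProportionallyChoosable {V : Type} [Fintype V] (G : SimpleGraph V) (k : ℕ) : Prop :=
  ∀ (C : Type) [DecidableEq C] (L : V → Finset C), (∀ v, (L v).card = k) →
    ∃ f : V → C, (∀ v, f v ∈ L v) ∧ (∀ u v, G.Adj u v → f u ≠ f v) ∧
      ∀ c, (∃ v, c ∈ L v) →
        ((univ.filter fun v => f v = c).card = ⌊(mult L c : ℚ) / (k : ℚ)⌋₊ ∨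
          (univ.filter fun v => f v = c).card = ⌈(mult L c : ℚ) / (k : ℚ)⌉₊)

/-- The proportional choice number: the least `k ≥ 1` such that `G` is proportionally
`k`-choosable. -/
noncomputable def propChoiceNumber {V : Type} [Fintype V] (G : SimpleGraph V) : ℕ :=
  sInf {k | 1 ≤ k ∧ ProportionallyChoosable G k}

/-- A version of the Mendelsohn-Dulmage theorem: if the vertices can be matched into the colours
with capacities, and the mandatory colours can be matched into the vertices, then both can be
achieved at once. -/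
lemma mandatory {V C : Type} [Fintype V] [DecidableEq V] [DecidableEq C] (L : V → Finset C)
    (cap : C → ℕ) (M : Finset C) (hcap : ∀ c ∈ M, 1 ≤ cap c)
    (h1 : ∀ V' : Finset V, V'.card ≤ ∑ c ∈ V'.biUnion L, cap c)
    (h2 : ∀ S ⊆ M, S.card ≤ (univ.filter fun v => ∃ c ∈ S, c ∈ L v).card) :
    ∃ f : V → C, (∀ v, f v ∈ L v) ∧ (∀ c, (univ.filter fun v => f v = c).card ≤ cap c) ∧
      ∀ c ∈ M, ∃ v, f v = c := by
  classical
  -- first matching
  obtain ⟨F, hFinj, hF⟩ := (Finset.all_card_le_biUnion_card_iff_exists_injective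
    (fun v => (L v).sigma fun c => range (cap c))).mp (by
      intro V'
      have : (V'.biUnion fun v => (L v).sigma fun c => range (cap c))
          = (V'.biUnion L).sigma fun c => range (cap c) := by
        ext ⟨c, i⟩
        simp only [mem_biUnion, mem_sigma]
        constructor
        · rintro ⟨v, hv, hc, hi⟩; exact ⟨⟨v, hv, hc⟩, hi⟩
        · rintro ⟨⟨v, hv, hc⟩, hi⟩; exact ⟨v, hv, hc, hi⟩
      rw [this, card_sigma]
      simpa using h1 V')
  have hf0 : (fun v => (F v).1) ∈ (Fintype.piFinset L).filter
      fun f => ∀ c, (univ.filter fun v => f v = c).card ≤ cap c := by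
    rw [mem_filter, Fintype.mem_piFinset]
    refine ⟨fun v => (mem_sigma.mp (hF v)).1, fun c => ?_⟩
    have h3 := Finset.card_le_card_of_injOn (s := univ.filter fun v => (F v).1 = c)
      (t := range (cap c)) (fun v => (F v).2)
      (fun v hv => by
        have hv' := (mem_filter.mp hv).2
        have := (mem_sigma.mp (hF v)).2
        rw [hv'] at this
        exact this)
      (fun v hv w hw hvw => by
        have hv' := (mem_filter.mp hv).2
        have hw' := (mem_filter.mp hw).2
        apply hFinj
        exact Sigma.ext (hv'.trans hw'.symm) (heq_of_eq hvw))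
    simpa using h3
  -- second matching
  obtain ⟨g, hginj, hg⟩ := (Finset.all_card_le_biUnion_card_iff_exists_injective
    (fun c : M => univ.filter fun v => (c : C) ∈ L v)).mp (by
      intro S
      have h3 := h2 (S.map ⟨Subtype.val, Subtype.val_injective⟩) (by
        intro c hc
        obtain ⟨c', _, rfl⟩ := mem_map.mp hc
        exact c'.2)
      rw [card_map] at h3
      refine h3.trans (card_le_card ?_)
      intro v hv
      obtain ⟨c, hc, hcv⟩ := (mem_filter.mp hv).2
      obtain ⟨c', hc', rfl⟩ := mem_map.mp hc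
      exact mem_biUnion.mpr ⟨c', hc', mem_filter.mpr ⟨mem_univ _, hcv⟩⟩)
  -- a feasible assignment agreeing as much as possible with the second matching
  obtain ⟨f, hf, hmax⟩ := Finset.exists_max_image _
    (fun f : V → C => (univ.filter fun c : M => f (g c) = (c : C)).card) ⟨_, hf0⟩
  rw [mem_filter, Fintype.mem_piFinset] at hf
  refine ⟨f, hf.1, hf.2, ?_⟩
  intro c₀ hc₀
  by_contra hno
  push Not at hno
  let c₀' : M := ⟨c₀, hc₀⟩
  let f' : V → C := Function.update f (g c₀') c₀
  have hne : f (g c₀') ≠ c₀ := hno _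
  have hf' : f' ∈ (Fintype.piFinset L).filter
      fun f => ∀ c, (univ.filter fun v => f v = c).card ≤ cap c := by
    rw [mem_filter, Fintype.mem_piFinset]
    constructor
    · intro v
      by_cases hv : v = g c₀'
      · subst hv
        simp only [f', Function.update_self]
        exact (mem_filter.mp (hg c₀')).2
      · simp only [f', Function.update_of_ne hv]
        exact hf.1 v
    · intro c
      by_cases hc : c = c₀
      · subst hc
        have : (univ.filter fun v => f' v = c) ⊆ {g c₀'} := by
          intro v hv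
          rw [mem_singleton]
          by_contra hv'
          have h4 := (mem_filter.mp hv).2
          simp only [f', Function.update_of_ne hv'] at h4
          exact hno v h4
        refine (card_le_card this).trans ?_
        rw [card_singleton]
        exact hcap c hc₀
      · refine le_trans (card_le_card ?_) (hf.2 c)
        intro v hv
        have h4 := (mem_filter.mp hv).2
        rw [mem_filter]
        refine ⟨mem_univ _, ?_⟩
        by_cases hv' : v = g c₀'
        · subst hv'
          simp only [f', Function.update_self] at h4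
          exact absurd h4.symm hc
        · simpa only [f', Function.update_of_ne hv'] using h4
  have h5 := hmax f' hf'
  have h6 : (univ.filter fun c : M => f (g c) = (c : C)) ⊂
      (univ.filter fun c : M => f' (g c) = (c : C)) := by
    rw [Finset.ssubset_iff_of_subset]
    · refine ⟨c₀', ?_, ?_⟩
      · rw [mem_filter]
        exact ⟨mem_univ _, by simp only [f', Function.update_self]; rfl⟩
      · rw [mem_filter]
        exact fun h => hne h.2
    · intro c hc
      have h7 := (mem_filter.mp hc).2
      rw [mem_filter]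
      refine ⟨mem_univ _, ?_⟩
      by_cases hcc : g c = g c₀'
      · have := hginj hcc
        subst this
        exact absurd h7 hne
      · simp only [f', Function.update_of_ne hcc]
        exact h7
  exact absurd h5 (not_le.mpr (card_lt_card h6))

/-- Double counting of the incidences between vertices and colours. -/
lemma double_count {V C : Type} [DecidableEq C] (K : V → Finset C) (W : Finset V)
    (X : Finset C) :
    ∑ v ∈ W, (K v ∩ X).card = ∑ c ∈ X, (W.filter fun v => c ∈ K v).card := by
  have h1 : ∀ v ∈ W, (K v ∩ X).card = ∑ c ∈ X, if c ∈ K v then 1 else 0 := by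
    intro v _
    rw [Finset.sum_ite, Finset.sum_const_zero, add_zero, Finset.sum_const, smul_eq_mul, mul_one]
    congr 1
    ext c
    simp only [mem_inter, mem_filter]
    tauto
  have h2 : ∀ c ∈ X, (W.filter fun v => c ∈ K v).card = ∑ v ∈ W, if c ∈ K v then 1 else 0 := by
    intro c _
    rw [Finset.card_filter]
  rw [Finset.sum_congr rfl h1, Finset.sum_congr rfl h2, Finset.sum_comm]

/-- The sizes that satisfy the capacity and mandatory conditions are the proportional ones. -/
lemma sizes {η k s : ℕ} (hk : 1 ≤ k) (hη : 1 ≤ η) (hη2 : η < 2 * k)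
    (h1 : s ≤ if k < η then 2 else 1) (h2 : k ≤ η → 1 ≤ s) :
    s = ⌊(η : ℚ) / (k : ℚ)⌋₊ ∨ s = ⌈(η : ℚ) / (k : ℚ)⌉₊ := by
  have hk0 : (0 : ℚ) < k := by exact_mod_cast hk
  rw [Nat.floor_div_natCast, Nat.floor_natCast]
  rcases lt_trichotomy η k with h | h | h
  · have hc : ⌈(η : ℚ) / (k : ℚ)⌉₊ = 1 := by
      rw [Nat.ceil_eq_iff (by norm_num)]
      constructor
      · simp only [tsub_self, Nat.cast_zero]
        positivity
      · rw [div_le_iff₀ hk0]
        push_cast
        rw [one_mul]
        exact_mod_cast h.le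
    rw [hc, Nat.div_eq_of_lt h]
    rw [if_neg (by omega)] at h1
    omega
  · subst h
    rw [Nat.div_self hk]
    rw [if_neg (by omega)] at h1
    left
    have := h2 le_rfl
    omega
  · have hc : ⌈(η : ℚ) / (k : ℚ)⌉₊ = 2 := by
      rw [Nat.ceil_eq_iff (by norm_num)]
      constructor
      · rw [lt_div_iff₀ hk0]
        push_cast
        norm_num
        exact_mod_cast h
      · rw [div_le_iff₀ hk0]
        exact_mod_cast hη2.le
    have hd : η / k = 1 := by
      rw [Nat.div_eq_iff (by omega)]
      omega
    rw [hc, hd]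
    rw [if_pos h] at h1
    have := h2 h.le
    omega

/-- The upper bound. -/
theorem choosable (n m e k : ℕ) (hn : 1 ≤ n) (hk : 2 * k = m + 2 * n + e)
    (he : 2 * n ^ 2 * m ≤ (n + e) * e) :
    ProportionallyChoosable (completeBipartiteGraph (Fin n) (Fin m)) k := by
  classical
  intro C _ L hL
  have hk1 : 1 ≤ k := by omega
  have hNk : n + m < 2 * k := by omega
  have hcardV : Fintype.card (Fin n ⊕ Fin m) = n + m := by simp
  have hmult : ∀ c, mult L c ≤ n + m := by
    intro c
    rw [← hcardV]
    exact card_le_univ _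
  let cap : C → ℕ := fun c => if k < mult L c then 2 else 1
  have hcap1 : ∀ c, 1 ≤ cap c := by intro c; simp only [cap]; split_ifs <;> omega
  have hcap2 : ∀ c, cap c ≤ 2 := by intro c; simp only [cap]; split_ifs <;> omega
  let pal : Finset C := univ.biUnion L
  let M : Finset C := pal.filter fun c => k ≤ mult L c
  let Ab : Finset C := pal.filter fun c => k < mult L c
  have hcapη : ∀ c, mult L c ≤ k * cap c := by
    intro c
    have := hmult c
    simp only [cap]
    split_ifs <;> omega
  have hpal : ∀ v, L v ⊆ pal := fun v => subset_biUnion_of_mem L (mem_univ v)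
  -- it suffices to respect the capacities and use the mandatory colours
  suffices hs : ∃ f : Fin n ⊕ Fin m → C, (∀ v, f v ∈ L v) ∧
      (∀ u v, (completeBipartiteGraph (Fin n) (Fin m)).Adj u v → f u ≠ f v) ∧
      (∀ c, (univ.filter fun v => f v = c).card ≤ cap c) ∧ ∀ c ∈ M, ∃ v, f v = c by
    obtain ⟨f, hf1, hf2, hf3, hf4⟩ := hs
    refine ⟨f, hf1, hf2, fun c hc => ?_⟩
    obtain ⟨v, hv⟩ := hc
    refine sizes hk1 ?_ (lt_of_le_of_lt (hmult c) hNk) (hf3 c) ?_
    · exact card_pos.mpr ⟨v, mem_filter.mpr ⟨mem_univ _, hv⟩⟩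
    · intro hkc
      obtain ⟨w, hw⟩ := hf4 c (mem_filter.mpr ⟨hpal v hv, hkc⟩)
      exact card_pos.mpr ⟨w, mem_filter.mpr ⟨mem_univ _, hw⟩⟩
  by_cases hcase : n * Ab.card < k
  · -- few abundant colours: keep them away from the small side
    let K : Fin n ⊕ Fin m → Finset C := Sum.elim (fun a => (L (Sum.inl a)).filter fun c => ¬ k < mult L c)
      (fun b => L (Sum.inr b))
    have hKL : ∀ v, K v ⊆ L v := by
      rintro (a | b)
      · exact filter_subset _ _
      · exact subset_rfl
    have hKcard : ∀ v, k ≤ (K v).card + (Sum.elim (fun _ => Ab.card) (fun _ => 0) v : ℕ) := by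
      rintro (a | b)
      · simp only [K, Sum.elim_inl]
        have h := Finset.card_filter_add_card_filter_not
          (s := L (Sum.inl a)) (fun c => ¬ k < mult L c)
        rw [hL] at h
        have h' : ((L (Sum.inl a)).filter fun c => ¬ ¬ k < mult L c).card ≤ Ab.card := by
          refine card_le_card ?_
          intro c hc
          rw [mem_filter, not_not] at hc
          exact mem_filter.mpr ⟨hpal _ hc.1, hc.2⟩
        omega
      · simp only [K, Sum.elim_inr]
        rw [hL]; omega
    have hsumA : ∀ W : Finset (Fin n ⊕ Fin m),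
        ∑ v ∈ W, (Sum.elim (fun _ => Ab.card) (fun _ => 0) v : ℕ) ≤ n * Ab.card := by
      intro W
      calc ∑ v ∈ W, (Sum.elim (fun _ => Ab.card) (fun _ => 0) v : ℕ)
          ≤ ∑ v : Fin n ⊕ Fin m, (Sum.elim (fun _ => Ab.card) (fun _ => 0) v : ℕ) :=
            Finset.sum_le_sum_of_subset (subset_univ _)
        _ = n * Ab.card := by
            rw [Fintype.sum_sum_type]
            simp
    obtain ⟨f, hf1, hf2, hf3⟩ := mandatory K cap M (fun c _ => hcap1 c) (by
      intro W
      have h1 : k * W.card ≤ k * ∑ c ∈ W.biUnion K, cap c + n * Ab.card := by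
        have h2 : ∑ v ∈ W, (K v ∩ W.biUnion K).card ≤ k * ∑ c ∈ W.biUnion K, cap c := by
          rw [double_count, Finset.mul_sum]
          refine Finset.sum_le_sum fun c _ => le_trans (card_le_card ?_) (hcapη c)
          intro v hv
          rw [mem_filter] at hv
          exact mem_filter.mpr ⟨mem_univ _, hKL v hv.2⟩
        have h3 : ∑ v ∈ W, k ≤ ∑ v ∈ W, ((K v ∩ W.biUnion K).card
            + (Sum.elim (fun _ => Ab.card) (fun _ => 0) v : ℕ)) := by
          refine Finset.sum_le_sum fun v hv => ?_
          rw [inter_eq_left.mpr (subset_biUnion_of_mem K hv)]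
          exact hKcard v
        rw [Finset.sum_add_distrib, Finset.sum_const, smul_eq_mul, mul_comm] at h3
        have h4 := hsumA W
        omega
      by_contra hcon
      push Not at hcon
      have h5 : k * (∑ c ∈ W.biUnion K, cap c + 1) ≤ k * W.card := Nat.mul_le_mul_left _ hcon
      rw [mul_add, mul_one] at h5
      omega) (by
      intro S hS
      by_contra hcon
      push Not at hcon
      have h1 : k * S.card ≤ ∑ v : Fin n ⊕ Fin m, (L v ∩ S).card := by
        rw [double_count, mul_comm, ← smul_eq_mul, ← Finset.sum_const]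
        exact Finset.sum_le_sum fun c hc => (mem_filter.mp (hS hc)).2
      have h2 : ∀ v : Fin n ⊕ Fin m, (L v ∩ S).card ≤ (if (∃ c ∈ S, c ∈ K v) then k else 0)
          + (Sum.elim (fun _ => Ab.card) (fun _ => 0) v : ℕ) := by
        rintro (a | b)
        · by_cases h : ∃ c ∈ S, c ∈ K (Sum.inl a)
          · rw [if_pos h]
            have : (L (Sum.inl a) ∩ S).card ≤ k := by
              rw [← hL (Sum.inl a)]; exact card_le_card inter_subset_left
            omega
          · rw [if_neg h, zero_add]
            simp only [Sum.elim_inl]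
            refine card_le_card ?_
            intro c hc
            rw [mem_inter] at hc
            refine mem_filter.mpr ⟨hpal _ hc.1, ?_⟩
            by_contra hcc
            exact h ⟨c, hc.2, mem_filter.mpr ⟨hc.1, hcc⟩⟩
        · by_cases h : ∃ c ∈ S, c ∈ K (Sum.inr b)
          · rw [if_pos h]
            have : (L (Sum.inr b) ∩ S).card ≤ k := by
              rw [← hL (Sum.inr b)]; exact card_le_card inter_subset_left
            omega
          · rw [if_neg h]
            have : L (Sum.inr b) ∩ S = ∅ := by
              rw [← Finset.disjoint_iff_inter_eq_empty, Finset.disjoint_left]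
              intro c hc hc'
              exact h ⟨c, hc', hc⟩
            rw [this]
            simp
      have h3 := Finset.sum_le_sum fun v (_ : v ∈ (univ : Finset (Fin n ⊕ Fin m))) => h2 v
      rw [Finset.sum_add_distrib, ← Finset.sum_filter, Finset.sum_const, smul_eq_mul] at h3
      have h4 := hsumA univ
      have h5 : ((univ.filter fun v => ∃ c ∈ S, c ∈ K v).card + 1) * k ≤ S.card * k :=
        Nat.mul_le_mul_right _ hcon
      rw [add_mul, one_mul, mul_comm S.card] at h5
      omega)
    refine ⟨f, fun v => hKL v (hf1 v), ?_, hf2, hf3⟩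
    -- properness
    have key : ∀ a b, f (Sum.inl a) ≠ f (Sum.inr b) := by
      intro a b hab
      have h1 : f (Sum.inl a) ∈ K (Sum.inl a) := hf1 _
      have h2 := (mem_filter.mp h1).2
      have h3 := hf2 (f (Sum.inl a))
      have h4 : cap (f (Sum.inl a)) = 1 := if_neg h2
      rw [h4, card_le_one] at h3
      have := h3 (Sum.inl a) (mem_filter.mpr ⟨mem_univ _, rfl⟩) (Sum.inr b)
        (mem_filter.mpr ⟨mem_univ _, hab.symm⟩)
      exact absurd this (by simp)
    rintro (u | u) (v | v) h
    · simp at h
    · exact key u v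
    · exact (key v u).symm
    · simp at h
  · -- many abundant colours
    push Not at hcase
    -- a global solution
    obtain ⟨f₀, hf₀1, hf₀2, hf₀3⟩ := mandatory L cap M (fun c _ => hcap1 c) (by
      intro W
      have h2 : ∑ v ∈ W, (L v ∩ W.biUnion L).card ≤ k * ∑ c ∈ W.biUnion L, cap c := by
        rw [double_count, Finset.mul_sum]
        refine Finset.sum_le_sum fun c _ => le_trans (card_le_card ?_) (hcapη c)
        intro v hv
        rw [mem_filter] at hv
        exact mem_filter.mpr ⟨mem_univ _, hv.2⟩
      have h3 : ∑ v ∈ W, k = ∑ v ∈ W, (L v ∩ W.biUnion L).card := by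
        refine Finset.sum_congr rfl fun v hv => ?_
        rw [inter_eq_left.mpr (subset_biUnion_of_mem L hv), hL]
      rw [← h3, Finset.sum_const, smul_eq_mul, mul_comm] at h2
      exact Nat.le_of_mul_le_mul_left h2 (by omega)) (by
      intro S hS
      have h1 : k * S.card ≤ ∑ v : Fin n ⊕ Fin m, (L v ∩ S).card := by
        rw [double_count, mul_comm, ← smul_eq_mul, ← Finset.sum_const]
        exact Finset.sum_le_sum fun c hc => (mem_filter.mp (hS hc)).2
      have h2 : ∀ v : Fin n ⊕ Fin m, (L v ∩ S).card ≤ (if (∃ c ∈ S, c ∈ L v) then k else 0) := by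
        intro v
        by_cases h : ∃ c ∈ S, c ∈ L v
        · rw [if_pos h, ← hL v]; exact card_le_card inter_subset_left
        · rw [if_neg h]
          have : L v ∩ S = ∅ := by
            rw [← Finset.disjoint_iff_inter_eq_empty, Finset.disjoint_left]
            intro c hc hc'
            exact h ⟨c, hc', hc⟩
          rw [this]; simp
      have h3 := Finset.sum_le_sum fun v (_ : v ∈ (univ : Finset (Fin n ⊕ Fin m))) => h2 v
      rw [← Finset.sum_filter, Finset.sum_const, smul_eq_mul] at h3
      rw [mul_comm] at h1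
      exact Nat.le_of_mul_le_mul_right (h1.trans h3) (by omega))
    let FA : Finset C := univ.image fun a : Fin n => f₀ (Sum.inl a)
    have hFA : FA.card ≤ n := by
      refine card_image_le.trans ?_
      simp
    let LB : Fin m → Finset C := fun b => L (Sum.inr b) \ FA
    obtain ⟨g, hg1, hg2, hg3⟩ := mandatory LB cap (M \ FA) (fun c _ => hcap1 c) (by
      intro B'
      by_cases hB : B'.card + n ≤ k
      · rcases B'.eq_empty_or_nonempty with h | ⟨b, hb⟩
        · simp [h]
        · have h1 : (LB b).card ≤ ∑ c ∈ B'.biUnion LB, cap c := by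
            calc (LB b).card ≤ (B'.biUnion LB).card := card_le_card (subset_biUnion_of_mem LB hb)
              _ = ∑ c ∈ B'.biUnion LB, 1 := by simp
              _ ≤ _ := Finset.sum_le_sum fun c _ => hcap1 c
          have h2 : (L (Sum.inr b)).card ≤ (LB b).card + FA.card :=
            card_le_card_sdiff_add_card
          rw [hL] at h2
          omega
      · -- large sets of vertices
        set X : Finset C := B'.biUnion fun b => L (Sum.inr b) with hX
        have hXLB : B'.biUnion LB = X \ FA := by
          ext c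
          simp only [hX, LB, mem_biUnion, mem_sdiff]
          constructor
          · rintro ⟨b, hb, h1, h2⟩; exact ⟨⟨b, hb, h1⟩, h2⟩
          · rintro ⟨⟨b, hb, h1⟩, h2⟩; exact ⟨b, hb, h1, h2⟩
        rw [hXLB]
        set x := (X ∩ Ab).card with hx
        set W : Finset (Fin n ⊕ Fin m) := B'.map ⟨Sum.inr, Sum.inr_injective⟩ with hW
        have hWc : W.card = B'.card := card_map _
        have hWX : ∀ v ∈ W, L v ⊆ X := by
          intro v hv
          obtain ⟨b, hb, rfl⟩ := mem_map.mp hv
          exact subset_biUnion_of_mem (fun b => L (Sum.inr b)) hb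
        -- capacity of X
        have h1 : k * B'.card + (n + e) * x ≤ k * ∑ c ∈ X, cap c := by
          have h2 : k * B'.card = ∑ v ∈ W, (L v ∩ X).card := by
            rw [← hWc, mul_comm, ← smul_eq_mul, ← Finset.sum_const]
            refine Finset.sum_congr rfl fun v hv => ?_
            rw [inter_eq_left.mpr (hWX v hv), hL]
          rw [h2, double_count, Finset.mul_sum]
          have h3 : (n + e) * x = ∑ c ∈ X, if c ∈ Ab then (n + e) else 0 := by
            rw [← Finset.sum_filter, Finset.sum_const, smul_eq_mul, mul_comm, hx,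
              Finset.filter_mem_eq_inter]
          rw [h3, ← Finset.sum_add_distrib]
          refine Finset.sum_le_sum fun c hc => ?_
          have h4 : (W.filter fun v => c ∈ L v).card ≤ mult L c :=
            card_le_card (fun v hv => mem_filter.mpr ⟨mem_univ _, (mem_filter.mp hv).2⟩)
          by_cases hcA : c ∈ Ab
          · rw [if_pos hcA]
            have h5 := (mem_filter.mp hcA).2
            have h6 : cap c = 2 := if_pos h5
            have h7 := hmult c
            rw [h6]
            omega
          · rw [if_neg hcA]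
            have := hcapη c
            omega
        have h2 : ∑ c ∈ X, cap c ≤ ∑ c ∈ X \ FA, cap c + 2 * n := by
          have h3 : ∑ c ∈ X, cap c ≤ ∑ c ∈ (X \ FA) ∪ FA, cap c :=
            Finset.sum_le_sum_of_subset (by
              intro c hc
              rw [mem_union, mem_sdiff]
              by_cases h : c ∈ FA
              · exact Or.inr h
              · exact Or.inl ⟨hc, h⟩)
          have h4 : ∑ c ∈ (X \ FA) ∪ FA, cap c = ∑ c ∈ X \ FA, cap c + ∑ c ∈ FA, cap c :=
            Finset.sum_union sdiff_disjoint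
          have h5 : ∑ c ∈ FA, cap c ≤ ∑ c ∈ FA, 2 := Finset.sum_le_sum fun c _ => hcap2 c
          rw [Finset.sum_const, smul_eq_mul] at h5
          omega
        -- abundance of X
        have h3 : 2 * n * k ≤ (n + e) * x := by
          by_contra hcon
          push Not at hcon
          have h4 : k * Ab.card ≤ ∑ v : Fin n ⊕ Fin m, (L v ∩ Ab).card := by
            rw [double_count, mul_comm, ← smul_eq_mul, ← Finset.sum_const]
            exact Finset.sum_le_sum fun c hc => (mem_filter.mp hc).2.le
          have h5 : ∑ v : Fin n ⊕ Fin m, (L v ∩ Ab).card ≤ m * x + (n + m - B'.card) * Ab.card := by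
            have h6 : ∑ v : Fin n ⊕ Fin m, (L v ∩ Ab).card
                = ∑ v ∈ W, (L v ∩ Ab).card + ∑ v ∈ Wᶜ, (L v ∩ Ab).card :=
              (Finset.sum_add_sum_compl W _).symm
            rw [h6]
            have h7 : ∑ v ∈ W, (L v ∩ Ab).card ≤ ∑ v ∈ W, x :=
              Finset.sum_le_sum fun v hv => card_le_card
                (inter_subset_inter_right (hWX v hv))
            have h8 : ∑ v ∈ Wᶜ, (L v ∩ Ab).card ≤ ∑ v ∈ Wᶜ, Ab.card :=
              Finset.sum_le_sum fun v _ => card_le_card inter_subset_right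
            rw [Finset.sum_const, smul_eq_mul, hWc] at h7
            rw [Finset.sum_const, smul_eq_mul, card_compl, hWc, hcardV] at h8
            have h9 : B'.card ≤ m := by
              have := card_le_univ B'
              simpa using this
            have h10 : B'.card * x ≤ m * x := Nat.mul_le_mul_right _ h9
            omega
          have hB' : B'.card ≤ m := by
            have := card_le_univ B'
            simpa using this
          -- (e+1) * |Ab| ≤ m x
          have h6 : (e + 1) * Ab.card ≤ m * x := by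
            have h7 : k * Ab.card ≤ m * x + (n + m - B'.card) * Ab.card := h4.trans h5
            have h8 : (e + 1) + (n + m - B'.card) ≤ k := by omega
            have h9 : ((e + 1) + (n + m - B'.card)) * Ab.card ≤ k * Ab.card :=
              Nat.mul_le_mul_right _ h8
            rw [add_mul] at h9
            omega
          have h7 : (n + e) * ((e + 1) * (n * Ab.card)) < m * (n * (2 * n * k)) ∨ m * n = 0 := by
            rcases Nat.eq_zero_or_pos (m * n) with h0 | h0
            · exact Or.inr h0
            · left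
              calc (n + e) * ((e + 1) * (n * Ab.card)) = (n * (n + e)) * ((e + 1) * Ab.card) := by
                    ring
                _ ≤ (n * (n + e)) * (m * x) := Nat.mul_le_mul_left _ h6
                _ = (m * n) * ((n + e) * x) := by ring
                _ < (m * n) * (2 * n * k) := Nat.mul_lt_mul_of_pos_left hcon h0
                _ = _ := by ring
          rcases h7 with h7 | h7
          · have h8 : (n + e) * ((e + 1) * k) ≤ (n + e) * ((e + 1) * (n * Ab.card)) :=
              Nat.mul_le_mul_left _ (Nat.mul_le_mul_left _ hcase)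
            have h9 : ((n + e) * (e + 1)) * k < (2 * n ^ 2 * m) * k := by
              calc ((n + e) * (e + 1)) * k = (n + e) * ((e + 1) * k) := by ring
                _ ≤ _ := h8
                _ < _ := h7
                _ = _ := by ring
            have h10 := Nat.lt_of_mul_lt_mul_right h9
            have h11 : (n + e) * e ≤ (n + e) * (e + 1) := Nat.mul_le_mul_left _ (by omega)
            omega
          · rcases Nat.mul_eq_zero.mp h7 with h8 | h8
            · omega
            · omega
        have h4 : k * B'.card ≤ k * ∑ c ∈ X \ FA, cap c := by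
          have h5 : k * ∑ c ∈ X, cap c ≤ k * (∑ c ∈ X \ FA, cap c + 2 * n) :=
            Nat.mul_le_mul_left _ h2
          rw [mul_add] at h5
          have h6 : k * (2 * n) = 2 * n * k := by ring
          omega
        exact Nat.le_of_mul_le_mul_left h4 (by omega)) (by
      intro S hS
      have hex : ∀ c ∈ S, ∃ b : Fin m, f₀ (Sum.inr b) = c := by
        intro c hc
        have h1 := mem_sdiff.mp (hS hc)
        obtain ⟨v, hv⟩ := hf₀3 c h1.1
        rcases v with a | b
        · exact absurd (mem_image.mpr ⟨a, mem_univ _, hv⟩) h1.2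
        · exact ⟨b, hv⟩
      have h2 : S ⊆ (univ.filter fun b => ∃ c ∈ S, c ∈ LB b).image fun b => f₀ (Sum.inr b) := by
        intro c hc
        obtain ⟨b, hb⟩ := hex c hc
        refine mem_image.mpr ⟨b, mem_filter.mpr ⟨mem_univ _, c, hc, ?_⟩, hb⟩
        refine mem_sdiff.mpr ⟨?_, (mem_sdiff.mp (hS hc)).2⟩
        rw [← hb]
        exact hf₀1 _
      exact (card_le_card h2).trans card_image_le)
    refine ⟨Sum.elim (fun a => f₀ (Sum.inl a)) g, ?_, ?_, ?_, ?_⟩
    · rintro (a | b)
      · exact hf₀1 _
      · exact (mem_sdiff.mp (hg1 b)).1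
    · have key : ∀ (a : Fin n) (b : Fin m), f₀ (Sum.inl a) ≠ g b := by
        intro a b hab
        exact (mem_sdiff.mp (hg1 b)).2 (mem_image.mpr ⟨a, mem_univ _, hab⟩)
      rintro (u | u) (v | v) h
      · simp at h
      · exact key u v
      · exact (key v u).symm
      · simp at h
    · intro c
      by_cases hc : c ∈ FA
      · refine le_trans (card_le_card ?_) (hf₀2 c)
        rintro (a | b) hv
        · exact mem_filter.mpr ⟨mem_univ _, (mem_filter.mp hv).2⟩
        · have h1 : g b = c := (mem_filter.mp hv).2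
          exact absurd hc (h1 ▸ (mem_sdiff.mp (hg1 b)).2)
      · have h1 : (univ.filter fun v : Fin n ⊕ Fin m => Sum.elim (fun a => f₀ (Sum.inl a)) g v = c)
            ⊆ (univ.filter fun b => g b = c).map ⟨Sum.inr, Sum.inr_injective⟩ := by
          rintro (a | b) hv
          · have h1 : f₀ (Sum.inl a) = c := (mem_filter.mp hv).2
            exact absurd (mem_image.mpr ⟨a, mem_univ _, h1⟩) hc
          · exact mem_map.mpr ⟨b, mem_filter.mpr ⟨mem_univ _, (mem_filter.mp hv).2⟩, rfl⟩
        refine (card_le_card h1).trans ?_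
        rw [card_map]
        exact hg2 c
    · intro c hc
      by_cases hcF : c ∈ FA
      · obtain ⟨a, _, ha⟩ := mem_image.mp hcF
        exact ⟨Sum.inl a, ha⟩
      · obtain ⟨b, hb⟩ := hg3 c (mem_sdiff.mpr ⟨hc, hcF⟩)
        exact ⟨Sum.inr b, hb⟩

/-- The lower bound. -/
theorem not_choosable (n m k : ℕ) (hn : 1 ≤ n) (hk : 1 ≤ k) (hkm : 2 * k ≤ m + 1) :
    ¬ ProportionallyChoosable (completeBipartiteGraph (Fin n) (Fin m)) k := by
  classical
  intro h
  obtain ⟨n, rfl⟩ : ∃ n', n = n' + 1 := ⟨n - 1, by omega⟩
  -- colours: pairs (label, i)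
  let L : Fin (n + 1) ⊕ Fin m → Finset (ℕ × ℕ) := Sum.elim
    (fun a => ({(a : ℕ)} : Finset ℕ) ×ˢ range k) (fun _ => ({0} : Finset ℕ) ×ˢ range k)
  obtain ⟨f, hf1, hf2, hf3⟩ := h (ℕ × ℕ) L (by
    rintro (a | b) <;> simp [L])
  set c := f (Sum.inl 0) with hc
  have hcL : c ∈ L (Sum.inl 0) := hf1 _
  have hc0 : c.1 = 0 ∧ c.2 < k := by
    simp only [L, Sum.elim_inl, mem_product, mem_singleton, mem_range] at hcL
    exact ⟨by rw [hcL.1]; rfl, hcL.2⟩
  have hmem : ∀ v, c ∈ L v ↔ v = Sum.inl 0 ∨ ∃ b, v = Sum.inr b := by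
    rintro (a | b)
    · simp only [L, Sum.elim_inl, mem_product, mem_singleton, mem_range, Sum.inl.injEq,
        reduceCtorEq, exists_false, or_false]
      constructor
      · rintro ⟨h1, _⟩
        apply Fin.ext
        rw [← h1, hc0.1]; rfl
      · rintro rfl
        exact ⟨hc0.1, hc0.2⟩
    · simp only [L, Sum.elim_inr, mem_product, mem_singleton, mem_range, reduceCtorEq,
        Sum.inr.injEq, exists_eq', or_true, iff_true]
      exact hc0
  have hmult : mult L c = m + 1 := by
    unfold mult
    have : (univ.filter fun v => c ∈ L v)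
        = insert (Sum.inl 0) ((univ : Finset (Fin m)).map ⟨Sum.inr, Sum.inr_injective⟩) := by
      ext v
      rw [mem_filter, hmem, mem_insert, mem_map]
      simp only [mem_univ, true_and, Function.Embedding.coeFn_mk, eq_comm]
    rw [this, card_insert_of_notMem (by simp), card_map]
    simp
  have hone : (univ.filter fun v => f v = c).card = 1 := by
    rw [card_eq_one]
    refine ⟨Sum.inl 0, ?_⟩
    ext v
    rw [mem_filter, mem_singleton]
    constructor
    · rintro ⟨_, hv⟩
      have h1 : c ∈ L v := hv ▸ hf1 v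
      rcases (hmem v).mp h1 with h2 | ⟨b, rfl⟩
      · exact h2
      · exfalso
        exact hf2 (Sum.inl 0) (Sum.inr b) (by simp) hv.symm
    · rintro rfl
      exact ⟨mem_univ _, rfl⟩
  have hk0 : (0 : ℚ) < k := by exact_mod_cast hk
  have hge : (2 : ℚ) ≤ (mult L c : ℚ) / (k : ℚ) := by
    rw [hmult, le_div_iff₀ hk0]
    exact_mod_cast hkm
  have h2 := hf3 c ⟨_, hcL⟩
  rw [hone] at h2
  have h3 : 2 ≤ ⌊(mult L c : ℚ) / (k : ℚ)⌋₊ := Nat.le_floor (by exact_mod_cast hge)
  have h4 : ⌊(mult L c : ℚ) / (k : ℚ)⌋₊ ≤ ⌈(mult L c : ℚ) / (k : ℚ)⌉₊ := Nat.floor_le_ceil _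
  omega

/-- Explicit two-sided bounds. -/
theorem bounds (n m : ℕ) (hn : 1 ≤ n) :
    m + 2 ≤ 2 * propChoiceNumber (completeBipartiteGraph (Fin n) (Fin m)) ∧
      2 * propChoiceNumber (completeBipartiteGraph (Fin n) (Fin m))
        ≤ m + 2 * n + n * (Nat.sqrt (2 * m) + 1) + 1 := by
  set s := Nat.sqrt (2 * m) + 1 with hs
  have hs2 : 2 * m ≤ s * s := (Nat.lt_succ_sqrt (2 * m)).le
  -- an admissible k
  have hex : ∃ k, 1 ≤ k ∧ 2 * k ≤ m + 2 * n + n * s + 1 ∧
      ProportionallyChoosable (completeBipartiteGraph (Fin n) (Fin m)) k := by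
    obtain ⟨e, k, hk, he1, he2⟩ : ∃ e k, 2 * k = m + 2 * n + e ∧ n * s ≤ e ∧ e ≤ n * s + 1 := by
      rcases Nat.even_or_odd (m + 2 * n + n * s) with ⟨k, hk⟩ | ⟨k, hk⟩
      · exact ⟨n * s, k, by omega, le_rfl, by omega⟩
      · exact ⟨n * s + 1, k + 1, by omega, by omega, le_rfl⟩
    refine ⟨k, by omega, by omega, choosable n m e k hn hk ?_⟩
    calc 2 * n ^ 2 * m = n * n * (2 * m) := by ring
      _ ≤ n * n * (s * s) := Nat.mul_le_mul_left _ hs2
      _ = (n * s) * (n * s) := by ring
      _ ≤ (n + e) * e := Nat.mul_le_mul (by omega) he1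
  obtain ⟨k, hk1, hk2, hk3⟩ := hex
  have hne : {k | 1 ≤ k ∧ ProportionallyChoosable (completeBipartiteGraph (Fin n) (Fin m)) k}.Nonempty :=
    ⟨k, hk1, hk3⟩
  constructor
  · have h1 := Nat.sInf_mem hne
    by_contra hcon
    push Not at hcon
    exact not_choosable n m _ hn h1.1 (by unfold propChoiceNumber at hcon; omega) h1.2
  · have h1 : propChoiceNumber (completeBipartiteGraph (Fin n) (Fin m)) ≤ k :=
      Nat.sInf_le ⟨hk1, hk3⟩
    omega

/-- For every fixed `n ≥ 1`, `χ_pc(K_{n,m})/m → 1/2` as `m → ∞`. -/
theorem result (n : ℕ) (hn : 1 ≤ n) :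
    Filter.Tendsto (fun m : ℕ =>
      (propChoiceNumber (completeBipartiteGraph (Fin n) (Fin m)) : ℝ) / (m : ℝ))
      Filter.atTop (nhds (1 / 2)) := by
  have hlow : ∀ᶠ m : ℕ in Filter.atTop, (1 / 2 : ℝ) ≤
      (propChoiceNumber (completeBipartiteGraph (Fin n) (Fin m)) : ℝ) / (m : ℝ) := by
    filter_upwards [Filter.eventually_ge_atTop 1] with m hm
    have hm0 : (0 : ℝ) < m := by exact_mod_cast hm
    rw [le_div_iff₀ hm0]
    have h1 : ((m + 2 : ℕ) : ℝ) ≤
        ((2 * propChoiceNumber (completeBipartiteGraph (Fin n) (Fin m)) : ℕ) : ℝ) := by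
      exact_mod_cast (bounds n m hn).1
    push_cast at h1
    linarith
  have hup : ∀ᶠ m : ℕ in Filter.atTop,
      (propChoiceNumber (completeBipartiteGraph (Fin n) (Fin m)) : ℝ) / (m : ℝ)
        ≤ 1 / 2 + (3 * n + 1) / 2 * (m : ℝ)⁻¹ + n * (Real.sqrt (m : ℝ))⁻¹ := by
    filter_upwards [Filter.eventually_ge_atTop 1] with m hm
    have hm0 : (0 : ℝ) < m := by exact_mod_cast hm
    have hsm : (0 : ℝ) < Real.sqrt m := Real.sqrt_pos.mpr hm0
    have hsq : Real.sqrt m * Real.sqrt m = m := Real.mul_self_sqrt hm0.le
    rw [div_le_iff₀ hm0]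
    have h1 : ((2 * propChoiceNumber (completeBipartiteGraph (Fin n) (Fin m)) : ℕ) : ℝ)
        ≤ ((m + 2 * n + n * (Nat.sqrt (2 * m) + 1) + 1 : ℕ) : ℝ) := by
      exact_mod_cast (bounds n m hn).2
    push_cast at h1
    have h2 : ((Nat.sqrt (2 * m) : ℕ) : ℝ) ≤ 2 * Real.sqrt m := by
      have h3 : ((Nat.sqrt (2 * m) : ℕ) : ℝ) ≤ Real.sqrt ((2 * m : ℕ) : ℝ) := Real.nat_sqrt_le_real_sqrt
      refine h3.trans ?_
      rw [Real.sqrt_le_left (by positivity)]
      push_cast
      nlinarith [Real.sq_sqrt hm0.le]
    have hn0 : (0 : ℝ) ≤ n := by positivity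
    have h4 : (n : ℝ) * (Nat.sqrt (2 * m) : ℕ) ≤ n * (2 * Real.sqrt m) :=
      mul_le_mul_of_nonneg_left h2 hn0
    have h5 : (1 / 2 + (3 * (n : ℝ) + 1) / 2 * (m : ℝ)⁻¹ + n * (Real.sqrt (m : ℝ))⁻¹) * m
        = m / 2 + (3 * n + 1) / 2 + n * Real.sqrt m := by
      have h6 : (m : ℝ)⁻¹ * m = 1 := inv_mul_cancel₀ hm0.ne'
      have h7 : (Real.sqrt (m : ℝ))⁻¹ * m = Real.sqrt m := by
        rw [inv_mul_eq_div, div_eq_iff hsm.ne', hsq]
      calc _ = m / 2 + (3 * (n : ℝ) + 1) / 2 * ((m : ℝ)⁻¹ * m)
            + n * ((Real.sqrt (m : ℝ))⁻¹ * m) := by ring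
        _ = _ := by rw [h6, h7]; ring
    rw [h5]
    nlinarith
  have hlim : Filter.Tendsto (fun m : ℕ =>
      (1 / 2 : ℝ) + (3 * n + 1) / 2 * (m : ℝ)⁻¹ + n * (Real.sqrt (m : ℝ))⁻¹)
      Filter.atTop (nhds (1 / 2)) := by
    have h1 : Filter.Tendsto (fun m : ℕ => (m : ℝ)⁻¹) Filter.atTop (nhds 0) :=
      tendsto_inv_atTop_nhds_zero_nat
    have h2 : Filter.Tendsto (fun m : ℕ => (Real.sqrt (m : ℝ))⁻¹) Filter.atTop (nhds 0) :=
      tendsto_inv_atTop_zero.comp
        (Real.tendsto_sqrt_atTop.comp tendsto_natCast_atTop_atTop)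
    have h3 := (((tendsto_const_nhds (x := (1 / 2 : ℝ))).add (h1.const_mul ((3 * (n : ℝ) + 1) / 2))).add
      (h2.const_mul (n : ℝ)))
    simpa using h3
  exact tendsto_of_tendsto_of_tendsto_of_le_of_le' tendsto_const_nhds hlim hlow hup

end Pool.Agent.Results.MP_f66848_co.AsymptoticHalf
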